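import Pool.Agent.H664.EX.Stm
import Pool.Agent.H390.FH.NoExp
import Pool.Agent.H293.FH.Zero
import Pool.Graph.R_pool_sql_team_seeded_3997aac3.Q166.EG.Lift

/-!
# Project EX (helper664), JOB DCOMP: derivatives along the slices

The element `u = ∂_z A (y) + y ∂_X A (y)` is not zero by an elementary argument (comparison of the
degrees in `z` of the leading and the constant coefficient), so that Ax's theorem is not needed.
-/

set_option autoImplicit false

namespace Pool.Agent.H71.EX

open MvPolynomial Filter Topology Metric Pool.Agent.W996.EC Pool.Agent.Q72.EG Pool.Agent.H664.FH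
  Pool.Agent.H664.EX Pool.Agent.Q166.EG

/-- coefficientwise derivative -/
noncomputable def cd (i : Fin 2) (A : Polynomial (MvPolynomial (Fin 2) ℂ)) :
    Polynomial (MvPolynomial (Fin 2) ℂ) :=
  A.sum fun n a => Polynomial.monomial n (pderiv i a)

lemma cd_add (i : Fin 2) (A B : Polynomial (MvPolynomial (Fin 2) ℂ)) :
    cd i (A + B) = cd i A + cd i B := by
  unfold cd
  rw [Polynomial.sum_add_index]
  · intro n
    simp
  · intro n a b
    simp

lemma cd_monomial (i : Fin 2) (n : ℕ) (a : MvPolynomial (Fin 2) ℂ) :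
    cd i (Polynomial.monomial n a) = Polynomial.monomial n (pderiv i a) := by
  unfold cd
  rw [Polynomial.sum_monomial_index]
  simp

lemma coeff_cd (i : Fin 2) (A : Polynomial (MvPolynomial (Fin 2) ℂ)) (n : ℕ) :
    (cd i A).coeff n = pderiv i (A.coeff n) := by
  induction A using Polynomial.induction_on' with
  | add p q hp hq => rw [cd_add, Polynomial.coeff_add, hp, hq, Polynomial.coeff_add, map_add]
  | monomial m a =>
    rw [cd_monomial, Polynomial.coeff_monomial, Polynomial.coeff_monomial]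
    split_ifs
    · rfl
    · rw [map_zero]

lemma natDegree_cd (i : Fin 2) (A : Polynomial (MvPolynomial (Fin 2) ℂ)) :
    (cd i A).natDegree ≤ A.natDegree := by
  rw [Polynomial.natDegree_le_iff_coeff_eq_zero]
  intro N hN
  rw [coeff_cd, Polynomial.coeff_eq_zero_of_natDegree_lt hN, map_zero]

/-! ### Chain rules -/

section alg

variable {K : Type} [Field K] [Algebra ℂ K]

lemma D_ph (D : Derivation ℂ K K) {n : ℕ} (ζ : Fin n → K) (a : MvPolynomial (Fin n) ℂ) :
    D (ph ζ a) = ∑ l, ph ζ (pderiv l a) * D (ζ l) := by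
  induction a using MvPolynomial.induction_on with
  | C c =>
    have h : ph ζ (C c) = algebraMap ℂ K c := by simp [ph]
    rw [h, D.map_algebraMap]
    simp
  | add p q hp hq =>
    simp only [map_add, add_mul, Finset.sum_add_distrib, hp, hq]
  | mul_X p i hp =>
    have hX : ph ζ (X i) = ζ i := by simp [ph]
    have h4 : ∀ l, ph ζ (pderiv l (p * X i)) * D (ζ l) =
        ph ζ (pderiv l p) * D (ζ l) * ζ i + (if l = i then ph ζ p * D (ζ i) else 0) := by
      intro l
      rw [Derivation.leibniz, pderiv_X]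
      simp only [smul_eq_mul, map_add, map_mul, hX, Pi.single_apply]
      split_ifs with h5 h6 h6
      · subst h5
        simp only [map_one]
        ring
      · exact absurd h5.symm h6
      · exact absurd h6.symm h5
      · simp only [map_zero]
        ring
    simp only [h4, Finset.sum_add_distrib]
    rw [map_mul, hX, Derivation.leibniz, hp]
    simp only [smul_eq_mul, Finset.sum_ite_eq', Finset.mem_univ, if_true, ← Finset.sum_mul]
    ring

lemma D_ev (D : Derivation ℂ K K) (ζ : Fin 2 → K) (k : K)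
    (A : Polynomial (MvPolynomial (Fin 2) ℂ)) :
    D (ev ζ k A) = ev ζ k (cd 0 A) * D (ζ 0) + ev ζ k (cd 1 A) * D (ζ 1) +
      ev ζ k (Polynomial.derivative A) * D k := by
  induction A using Polynomial.induction_on' with
  | add p q hp hq =>
    have h : ∀ a b : Polynomial (MvPolynomial (Fin 2) ℂ), ev ζ k (a + b) = ev ζ k a + ev ζ k b :=
      fun a b => by rw [ev, Polynomial.eval₂_add]; rfl
    rw [cd_add, cd_add, Polynomial.derivative_add, h, h, h, h, map_add, hp, hq]
    ring
  | monomial n a =>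
    rw [cd_monomial, cd_monomial, Polynomial.derivative_monomial]
    simp only [ev, Polynomial.eval₂_monomial]
    rw [Derivation.leibniz, Derivation.leibniz_pow, D_ph, Fin.sum_univ_two, map_mul, map_natCast]
    simp only [smul_eq_mul, nsmul_eq_mul]
    ring

end alg

/-- `ev` on points -/
lemma deriv_ev (A : Polynomial (MvPolynomial (Fin 2) ℂ)) {X Y : ℂ → ℂ} {X' Y' τ : ℂ}
    (hX : HasDerivAt X X' τ) (hY : HasDerivAt Y Y' τ) :
    HasDerivAt (fun s => ev ![X s, s] (Y s) A)
      (ev ![X τ, τ] (Y τ) (cd 0 A) * X' + ev ![X τ, τ] (Y τ) (cd 1 A) +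
        ev ![X τ, τ] (Y τ) (Polynomial.derivative A) * Y') τ := by
  induction A using Polynomial.induction_on' with
  | add p q hp hq =>
    have h : ∀ (x : Fin 2 → ℂ) (y : ℂ) (a b : Polynomial (MvPolynomial (Fin 2) ℂ)),
        ev x y (a + b) = ev x y a + ev x y b :=
      fun x y a b => by rw [ev, Polynomial.eval₂_add]; rfl
    have h2 := hp.add hq
    rw [cd_add, cd_add, Polynomial.derivative_add, h, h, h]
    have e : (fun s => ev ![X s, s] (Y s) (p + q)) =
        (fun s => ev ![X s, s] (Y s) p) + (fun s => ev ![X s, s] (Y s) q) := by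
      funext s
      exact h _ _ _ _
    rw [e]
    exact h2.congr_deriv (by ring)
  | monomial n a =>
    have h1 : HasDerivAt (fun s => ph ![X s, s] a)
        (ph ![X τ, τ] (pderiv 0 a) * X' + ph ![X τ, τ] (pderiv 1 a)) τ := by
      have hv : HasDerivAt (fun s => (![X s, s] : Fin 2 → ℂ)) ![X', 1] τ := by
        rw [hasDerivAt_pi]
        intro i
        fin_cases i
        · exact hX
        · exact hasDerivAt_id τ
      have h2 := Pool.Agent.H293.FH.eval_deriv a hv
      rw [Fin.sum_univ_two] at h2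
      simp only [ph_C]
      convert h2 using 1
      simp
    have h3 := h1.mul (hY.pow n)
    simp only [ev, Polynomial.eval₂_monomial, cd_monomial, Polynomial.derivative_monomial]
    refine HasDerivAt.congr_deriv (f := fun s => ph ![X s, s] a * Y s ^ n) h3 ?_
    rw [map_mul, map_natCast, Pi.pow_apply]
    ring

/-! ### The minimal relations -/

section rel

variable {K : Type} [Field K] [Algebra ℂ K] {ζ : Fin 2 → K}

lemma ph_inj (h : AlgebraicIndependent ℂ ζ) {a : MvPolynomial (Fin 2) ℂ} (ha : ph ζ a = 0) :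
    a = 0 := h.eq_zero_of_aeval_eq_zero a ha

lemma map_inj (h : AlgebraicIndependent ℂ ζ) {A : Polynomial (MvPolynomial (Fin 2) ℂ)}
    (hA : A.map (ph ζ) = 0) : A = 0 := by
  ext1 n
  rw [Polynomial.coeff_zero]
  apply ph_inj h
  have := congrArg (fun p => Polynomial.coeff p n) hA
  simpa [Polynomial.coeff_map] using this

lemma w_ne (h : AlgebraicIndependent ℂ ζ) {k : K} {A : Polynomial (MvPolynomial (Fin 2) ℂ)}
    (hA : Mn ζ k A) : ev ζ k (Polynomial.derivative A) ≠ 0 := by
  intro h0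
  have hd := hA.deg
  have h1 := map_inj h (hA.min _ (Polynomial.natDegree_derivative_lt (by omega)) h0)
  have h2 := congrArg (fun p => Polynomial.coeff p (A.natDegree - 1)) h1
  simp only [Polynomial.coeff_derivative, Polynomial.coeff_zero] at h2
  rw [Nat.sub_add_cancel hd] at h2
  rcases mul_eq_zero.1 h2 with h3 | h3
  · apply hA.lead
    have : A.leadingCoeff = 0 := h3
    rw [this, map_zero]
  · have h4 : (((A.natDegree - 1 + 1 : ℕ)) : MvPolynomial (Fin 2) ℂ) = 0 := by
      push_cast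
      exact h3
    rw [Nat.sub_add_cancel hd, Nat.cast_eq_zero] at h4
    omega

lemma u_ne (h : AlgebraicIndependent ℂ ζ) {y : K} (hy : y ≠ 0)
    {A : Polynomial (MvPolynomial (Fin 2) ℂ)} (hA : Mn ζ y A) :
    ev ζ y (cd 0 A) + y * ev ζ y (Polynomial.derivative A) ≠ 0 := by
  intro h0
  have hd := hA.deg
  set B : Polynomial (MvPolynomial (Fin 2) ℂ) :=
    cd 0 A + Polynomial.X * Polynomial.derivative A with hB
  have hBev : ev ζ y B = 0 := by
    rw [hB, ev, Polynomial.eval₂_add, Polynomial.eval₂_mul, Polynomial.eval₂_X]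
    exact h0
  have hBc : ∀ n, B.coeff n = pderiv 0 (A.coeff n) + (n : MvPolynomial (Fin 2) ℂ) * A.coeff n := by
    intro n
    rw [hB, Polynomial.coeff_add, coeff_cd]
    congr 1
    rcases n with _ | n
    · rw [Polynomial.coeff_X_mul_zero, Nat.cast_zero, zero_mul]
    · rw [Polynomial.coeff_X_mul, Polynomial.coeff_derivative]
      push_cast
      ring
  have hBd : B.natDegree ≤ A.natDegree := by
    rw [Polynomial.natDegree_le_iff_coeff_eq_zero]
    intro N hN
    rw [hBc, Polynomial.coeff_eq_zero_of_natDegree_lt hN, map_zero, mul_zero, add_zero]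
  set G : Polynomial (MvPolynomial (Fin 2) ℂ) :=
    Polynomial.C A.leadingCoeff * B - Polynomial.C (B.coeff A.natDegree) * A with hG
  have hGd : G.natDegree < A.natDegree := by
    have h1 : G.natDegree ≤ A.natDegree := by
      refine (Polynomial.natDegree_sub_le _ _).trans (max_le ?_ ?_)
      · exact (Polynomial.natDegree_C_mul_le _ _).trans hBd
      · exact Polynomial.natDegree_C_mul_le _ _
    refine lt_of_le_of_ne h1 fun he => ?_
    have h2 : G.leadingCoeff = 0 := by
      rw [Polynomial.leadingCoeff, he, hG, Polynomial.coeff_sub, Polynomial.coeff_C_mul,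
        Polynomial.coeff_C_mul, Polynomial.coeff_natDegree]
      ring
    have h3 : G = 0 := Polynomial.leadingCoeff_eq_zero.1 h2
    rw [h3, Polynomial.natDegree_zero] at he
    omega
  have hGev : ev ζ y G = 0 := by
    rw [hG, ev, Polynomial.eval₂_sub, Polynomial.eval₂_mul, Polynomial.eval₂_mul]
    have e1 : Polynomial.eval₂ (ph ζ) y B = 0 := hBev
    have e2 : Polynomial.eval₂ (ph ζ) y A = 0 := hA.rel
    rw [e1, e2]
    ring
  have hG0 : G = 0 := map_inj h (hA.min _ hGd hGev)
  have h5 := congrArg (fun p => Polynomial.coeff p 0) hG0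
  simp only [hG, Polynomial.coeff_sub, Polynomial.coeff_C_mul, Polynomial.coeff_zero, hBc,
    Nat.cast_zero, zero_mul, add_zero, Polynomial.coeff_natDegree] at h5
  have hp : A.coeff 0 ≠ 0 := fun h6 => hA.zero hy (by rw [h6, map_zero])
  have hq : A.leadingCoeff ≠ 0 := fun h6 => hA.lead (by rw [h6, map_zero])
  refine Pool.Agent.H390.FH.no_log (0 : Fin 2) (A.coeff 0) A.leadingCoeff (A.natDegree : ℂ) hp hq
    (by
      have : A.natDegree ≠ 0 := by omega
      exact_mod_cast this) ?_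
  rw [map_natCast]
  linear_combination h5

end rel

/-! ### Transfer to the points -/

lemma tr {E : Type} [Field E] [Algebra ℂ E] {σ : Type} {ξ : σ → E} {p : σ → ℂ} (hp : p ∈ Pt ξ)
    (j : Fin 2 → σ) (s a c : σ) (A B C : Polynomial (MvPolynomial (Fin 2) ℂ))
    (h : ev (fun i => ξ (j i)) (ξ s) A * ξ a + ev (fun i => ξ (j i)) (ξ s) B +
      ev (fun i => ξ (j i)) (ξ s) C * ξ c = 0) :
    ev (fun i => p (j i)) (p s) A * p a + ev (fun i => p (j i)) (p s) B +
      ev (fun i => p (j i)) (p s) C * p c = 0 := by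
  rw [pt_iff] at hp
  have hX : ∀ (F : Type) [Field F] [Algebra ℂ F] (x : σ → F) (i : σ), ph x (X i) = x i :=
    fun F _ _ x i => by simp [ph]
  have h1 := hp (emb j s A * X a + emb j s B + emb j s C * X c) (by
    rw [map_add, map_add, map_mul, map_mul, ph_emb, ph_emb, ph_emb, hX, hX]
    exact h)
  rw [map_add, map_add, map_mul, map_mul, ph_emb, ph_emb, ph_emb, hX, hX] at h1
  exact h1

lemma ev_add {F : Type} [Field F] [Algebra ℂ F] (x : Fin 2 → F) (y : F)
    (A B : Polynomial (MvPolynomial (Fin 2) ℂ)) : ev x y (A + B) = ev x y A + ev x y B := by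
  rw [ev, Polynomial.eval₂_add]; rfl

lemma ev_X_mul {F : Type} [Field F] [Algebra ℂ F] (x : Fin 2 → F) (y : F)
    (A : Polynomial (MvPolynomial (Fin 2) ℂ)) : ev x y (Polynomial.X * A) = y * ev x y A := by
  rw [ev, Polynomial.eval₂_mul, Polynomial.eval₂_X]; rfl

lemma ev_neg_one {F : Type} [Field F] [Algebra ℂ F] (x : Fin 2 → F) (y : F) :
    ev x y (-1) = -1 := by
  rw [ev, Polynomial.eval₂_neg, Polynomial.eval₂_one]

lemma ev_zero {F : Type} [Field F] [Algebra ℂ F] (x : Fin 2 → F) (y : F) :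
    ev x y (0 : Polynomial (MvPolynomial (Fin 2) ℂ)) = 0 := by
  rw [ev, Polynomial.eval₂_zero]

/-- the relation along a curve, differentiated -/
lemma along {A : Polynomial (MvPolynomial (Fin 2) ℂ)} {U : Set ℂ} (hU : IsOpen U) {X Y : ℂ → ℂ}
    (hX : DifferentiableOn ℂ X U) (hY : DifferentiableOn ℂ Y U)
    (h : ∀ s ∈ U, ev ![X s, s] (Y s) A = 0) {τ : ℂ} (hτ : τ ∈ U) :
    ev ![X τ, τ] (Y τ) (cd 0 A) * deriv X τ + ev ![X τ, τ] (Y τ) (cd 1 A) +
      ev ![X τ, τ] (Y τ) (Polynomial.derivative A) * deriv Y τ = 0 := by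
  have h1 := deriv_ev A (hX.differentiableAt (hU.mem_nhds hτ)).hasDerivAt
    (hY.differentiableAt (hU.mem_nhds hτ)).hasDerivAt
  have h2 : HasDerivAt (fun s => ev ![X s, s] (Y s) A) 0 τ := by
    refine (hasDerivAt_const τ (0 : ℂ)).congr_of_eventuallyEq ?_
    filter_upwards [hU.mem_nhds hτ] with s hs using h s hs
  exact h1.unique h2

theorem dcomp (_h : S_axK) : S_dcomp := by
  classical
  intro K _ _ S Q
  have hζ := S.ind
  have halg : ∀ k : K, ∃ A, Mn ![S.z, S.t] k A := fun k => mn_alg (by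
    have e : Set.range ![S.z, S.t] = {S.z, S.t} := by
      ext x
      simp [or_comm]
    rw [e]
    exact S.alg k)
  choose A hA using halg
  let w : K → K := fun k => ev ![S.z, S.t] k (Polynomial.derivative (A k))
  let u : K := ev ![S.z, S.t] S.y (cd 0 (A S.y)) +
    S.y * ev ![S.z, S.t] S.y (Polynomial.derivative (A S.y))
  refine ⟨Q ∪ Q.image w ∪ {S.D S.z, u, w S.v}, ?_, ?_⟩
  · intro k hk
    simp [hk]
  set Q' : Finset K := Q ∪ Q.image w ∪ {S.D S.z, u, w S.v} with hQ'
  have hQQ : ∀ k ∈ Q, k ∈ Q' := fun k hk => by simp [hQ', hk]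
  have hwQ : ∀ k ∈ Q, w k ∈ Q' := fun k hk => by
    rw [hQ', Finset.mem_union, Finset.mem_union]
    exact Or.inl (Or.inr (Finset.mem_image_of_mem w hk))
  have hDz : S.D S.z ∈ Q' := by simp [hQ']
  have hu : u ∈ Q' := by simp [hQ']
  have hwv : w S.v ∈ Q' := by simp [hQ']
  have hw0 : ∀ k, w k ≠ 0 := fun k => w_ne hζ (hA k)
  have hu0 : u ≠ 0 := u_ne hζ S.y0 (hA S.y)
  intro U X V q hU hX hV hq hpt hne
  -- the point
  let ξ : Fin 4 ⊕ Q' → K := Sum.elim ![S.z, S.t, S.v, S.y] (fun k : Q' => (k : K))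
  let P : ℂ → (Fin 4 ⊕ Q') → ℂ := fun τ =>
    Sum.elim ![X τ, τ, V τ, Complex.exp (X τ)] (fun k : Q' => q k τ)
  have hP : ∀ τ ∈ U, P τ ∈ Pt ξ := hpt
  let j : Fin 2 → Fin 4 ⊕ Q' := ![Sum.inl 0, Sum.inl 1]
  have hξj : (fun i => ξ (j i)) = ![S.z, S.t] := by
    ext i
    fin_cases i <;> rfl
  have hPj : ∀ τ, (fun i => P τ (j i)) = ![X τ, τ] := by
    intro τ
    ext i
    fin_cases i <;> rfl
  -- the identity in `K`
  have hK : ∀ k : K, ev ![S.z, S.t] k (cd 0 (A k)) * S.D S.z + ev ![S.z, S.t] k (cd 1 (A k)) +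
      ev ![S.z, S.t] k (Polynomial.derivative (A k)) * S.D k = 0 := by
    intro k
    have h1 := D_ev S.D ![S.z, S.t] k (A k)
    rw [(hA k).rel, map_zero] at h1
    have h2 : S.D (![S.z, S.t] 0) = S.D S.z := rfl
    have h3 : S.D (![S.z, S.t] 1) = 1 := S.Dt
    rw [h2, h3, mul_one] at h1
    exact h1.symm
  -- the values of the relations
  have hrel : ∀ (k : K) (s : Fin 4 ⊕ Q'), ξ s = k → ∀ τ ∈ U, ev ![X τ, τ] (P τ s) (A k) = 0 := by
    intro k s hs τ hτ
    have h1 := tr (hP τ hτ) j s s s 0 (A k) 0 (by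
      rw [hξj, hs, ev_zero, (hA k).rel]
      ring)
    rw [hPj, ev_zero] at h1
    linear_combination h1
  -- `X' = q (D z)`
  have hX' : ∀ τ ∈ U, deriv X τ = q (S.D S.z) τ := by
    intro τ hτ
    have h1 := along hU hX (hX.cexp) (A := A S.y)
      (fun s hs => hrel S.y (Sum.inl 3) rfl s hs) hτ
    have h2 : deriv (fun s => Complex.exp (X s)) τ = Complex.exp (X τ) * deriv X τ :=
      ((hX.differentiableAt (hU.mem_nhds hτ)).hasDerivAt.cexp).deriv
    rw [h2] at h1
    have h3 := tr (hP τ hτ) j (Sum.inl 3) (Sum.inr ⟨_, hDz⟩) (Sum.inr ⟨_, hDz⟩) (cd 0 (A S.y))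
      (cd 1 (A S.y)) (Polynomial.X * Polynomial.derivative (A S.y)) (by
        rw [hξj, ev_X_mul]
        have e1 : ξ (Sum.inl 3) = S.y := rfl
        have e2 : ξ (Sum.inr ⟨_, hDz⟩) = S.D S.z := rfl
        rw [e1, e2]
        have h4 := hK S.y
        rw [S.Dy] at h4
        linear_combination h4)
    have h5 := tr (hP τ hτ) j (Sum.inl 3) (Sum.inr ⟨_, hu⟩) (Sum.inr ⟨_, hu⟩) (-1)
      (cd 0 (A S.y) + Polynomial.X * Polynomial.derivative (A S.y)) 0 (by
        rw [hξj, ev_zero, ev_neg_one, ev_add, ev_X_mul]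
        have e1 : ξ (Sum.inl 3) = S.y := rfl
        have e2 : ξ (Sum.inr ⟨_, hu⟩) = u := rfl
        rw [e1, e2]
        show -1 * u + u + 0 * u = 0
        ring)
    rw [hPj, ev_X_mul] at h3
    rw [hPj, ev_zero, ev_neg_one, ev_add, ev_X_mul] at h5
    have e3 : P τ (Sum.inl 3) = Complex.exp (X τ) := rfl
    have e4 : P τ (Sum.inr ⟨_, hDz⟩) = q (S.D S.z) τ := rfl
    have e5 : P τ (Sum.inr ⟨_, hu⟩) = q u τ := rfl
    rw [e3, e4] at h3
    rw [e3, e5] at h5
    have h6 := hne τ hτ u hu hu0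
    have h7 : q u τ * (deriv X τ - q (S.D S.z) τ) = 0 := by
      linear_combination h1 - h3 - (deriv X τ - q (S.D S.z) τ) * h5
    exact sub_eq_zero.1 ((mul_eq_zero.1 h7).resolve_left h6)
  -- the general statement
  have hgen : ∀ (k : K) (s : Fin 4 ⊕ Q'), ξ s = k → DifferentiableOn ℂ (fun τ => P τ s) U →
      w k ∈ Q' → S.D k ∈ Q' → ∀ τ ∈ U, deriv (fun τ => P τ s) τ = q (S.D k) τ := by
    intro k s hs hdiff hwk hDk τ hτ
    have h1 := along hU hX hdiff (A := A k) (fun s' hs' => hrel k s hs s' hs') hτ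
    rw [hX' τ hτ] at h1
    have h3 := tr (hP τ hτ) j s (Sum.inr ⟨_, hDz⟩) (Sum.inr ⟨_, hDk⟩) (cd 0 (A k))
      (cd 1 (A k)) (Polynomial.derivative (A k)) (by
        rw [hξj, hs]
        exact hK k)
    have h5 := tr (hP τ hτ) j s (Sum.inr ⟨_, hwk⟩) (Sum.inr ⟨_, hwk⟩) (-1)
      (Polynomial.derivative (A k)) 0 (by
        rw [hξj, ev_zero, ev_neg_one, hs]
        have e2 : ξ (Sum.inr ⟨_, hwk⟩) = w k := rfl
        rw [e2]
        show -1 * w k + w k + 0 * w k = 0
        ring)
    rw [hPj] at h3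
    rw [hPj, ev_zero, ev_neg_one] at h5
    have e4 : P τ (Sum.inr ⟨_, hDz⟩) = q (S.D S.z) τ := rfl
    have e5 : P τ (Sum.inr ⟨_, hwk⟩) = q (w k) τ := rfl
    have e6 : P τ (Sum.inr ⟨_, hDk⟩) = q (S.D k) τ := rfl
    rw [e4, e6] at h3
    rw [e5] at h5
    have h6 := hne τ hτ (w k) hwk (hw0 k)
    have h7 : q (w k) τ * (deriv (fun τ => P τ s) τ - q (S.D k) τ) = 0 := by
      linear_combination h1 - h3 - (deriv (fun τ => P τ s) τ - q (S.D k) τ) * h5
    exact sub_eq_zero.1 ((mul_eq_zero.1 h7).resolve_left h6)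
  refine ⟨fun τ hτ k hk hDk => ?_, fun τ hτ hDv => ?_⟩
  · exact hgen k (Sum.inr ⟨k, hQQ k hk⟩) rfl (hq k (hQQ k hk)) (hwQ k hk) (hQQ _ hDk) τ hτ
  · exact hgen S.v (Sum.inl 2) rfl hV hwv (hQQ _ hDv) τ hτ

end Pool.Agent.H71.EX
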